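import Pool.Agent.Lib.MP_3d6d95_lc.Final

/-!
An undetermined elusiveness game for a monotone graph property (in ZFC).

The definitions of the game (graphs on the natural numbers, graph properties, monotonicity,
histories, runs, the winning condition of Seeker, winning strategies of both players and
determinacy) are in `Pool.Agent.Lib.MP_3d6d95_lc.Game`.
-/

namespace Pool.Agent.Results.MP_3d6d95_lc.Undetermined

open Pool.Agent.Lib.MP_3d6d95_lc

/-- There is a monotone graph property on the natural numbers whose elusiveness game is not
determined: neither Seeker nor Hider has a winning strategy. -/
theorem result : ∃ S : Set Gr, IsGraphProperty S ∧ IsMonotone S ∧ ¬ Determined S := by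
  obtain ⟨A, hA⟩ := undetermined
  exact ⟨SS A, SS_isGraphProperty A, SS_isMonotone A, hA⟩

end Pool.Agent.Results.MP_3d6d95_lc.Undetermined
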